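import Pool.Agent.Helper87.EX.Defs

/-! Project EX, module B: alternation and coboundary. -/

set_option autoImplicit false

namespace Pool.Agent.H99.EXB

open MeasureTheory Complex
open Pool.Agent.Helper87.EX
open scoped BigOperators

/-! ### alternation -/

theorem alt_perm {n : ℕ} {X : Type*} (F : (Fin n → X) → ℝ) (v : Fin n → X)
    (τ : Equiv.Perm (Fin n)) :
    Alt F (fun i => v (τ i)) = ((Equiv.Perm.sign τ : ℤ) : ℝ) * Alt F v := by
  unfold Alt
  rw [← Equiv.sum_comp (Equiv.mulLeft τ⁻¹)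
    (fun σ : Equiv.Perm (Fin n) => ((Equiv.Perm.sign σ : ℤ) : ℝ) * F (fun i => v (τ (σ i)))),
    Finset.mul_sum]
  refine Finset.sum_congr rfl fun σ _ => ?_
  have h1 : ∀ i, τ ((τ⁻¹ * σ) i) = σ i := fun i => by simp
  simp only [Equiv.coe_mulLeft, Equiv.Perm.sign_mul, Equiv.Perm.sign_inv, h1, Units.val_mul,
    Int.cast_mul]
  ring

theorem alt_alter {n : ℕ} {X : Type*} (F : (Fin n → X) → ℝ) : Alter (Alt F) := by
  intro i j m hij
  rw [alt_perm F m (Equiv.swap i j), Equiv.Perm.sign_swap hij]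
  simp

theorem alter_perm {n : ℕ} {X : Type*} {F : (Fin n → X) → ℝ} (hF : Alter F)
    (σ : Equiv.Perm (Fin n)) (m : Fin n → X) :
    F (fun i => m (σ i)) = ((Equiv.Perm.sign σ : ℤ) : ℝ) * F m := by
  induction σ using Equiv.Perm.swap_induction_on generalizing m with
  | one => simp
  | swap_mul f x y hxy ih =>
    have h1 := ih (fun l => m (Equiv.swap x y l))
    simp only [Equiv.Perm.mul_apply]
    rw [h1, hF x y m hxy, Equiv.Perm.sign_mul, Equiv.Perm.sign_swap hxy]
    push_cast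
    ring

theorem alt_of_alter {n : ℕ} {X : Type*} {F : (Fin n → X) → ℝ} (hF : Alter F) (m : Fin n → X) :
    Alt F m = (n.factorial : ℝ) * F m := by
  unfold Alt
  have h : ∀ σ ∈ (Finset.univ : Finset (Equiv.Perm (Fin n))),
      ((Equiv.Perm.sign σ : ℤ) : ℝ) * F (fun i => m (σ i)) = F m := by
    intro σ _
    rw [alter_perm hF σ m, ← mul_assoc]
    have h2 : ((Equiv.Perm.sign σ : ℤ) : ℝ) * ((Equiv.Perm.sign σ : ℤ) : ℝ) = 1 := by
      rcases Int.units_eq_one_or (Equiv.Perm.sign σ) with h | h <;> rw [h] <;> simp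
    rw [h2, one_mul]
  rw [Finset.sum_congr rfl h, Finset.sum_const, Finset.card_univ, Fintype.card_perm,
    Fintype.card_fin, nsmul_eq_mul]

/-- expansion of an alternation along its first argument -/
theorem alt_expand {n : ℕ} {X : Type*} (F : (Fin (n + 1) → X) → ℝ) (v : Fin (n + 1) → X) :
    Alt F v = ∑ p : Fin (n + 1), (-1 : ℝ) ^ (p : ℕ) *
      Alt (fun w : Fin n → X => F (Fin.cons (v p) w)) (fun j => v (p.succAbove j)) := by
  have h0 : Alt F v = ∑ x : Fin (n + 1) × Equiv.Perm (Fin n),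
      ((Equiv.Perm.sign (Equiv.Perm.decomposeFin.symm x) : ℤ) : ℝ) *
        F (fun i => v (Equiv.Perm.decomposeFin.symm x i)) := by
    unfold Alt
    exact (Equiv.sum_comp Equiv.Perm.decomposeFin.symm (fun σ : Equiv.Perm (Fin (n + 1)) =>
      ((Equiv.Perm.sign σ : ℤ) : ℝ) * F (fun i => v (σ i)))).symm
  rw [h0, Fintype.sum_prod_type]
  refine Finset.sum_congr rfl fun p _ => ?_
  have h1 : ∀ e : Equiv.Perm (Fin n),
      (fun i => v (Equiv.Perm.decomposeFin.symm (p, e) i))
        = Fin.cons (v p) (fun j : Fin n => v (Equiv.swap 0 p (e j).succ)) := by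
    intro e
    funext i
    refine Fin.cases ?_ (fun j => ?_) i
    · simp
    · simp [Equiv.Perm.decomposeFin_symm_apply_succ]
  simp only [h1, Equiv.Perm.decomposeFin.symm_sign]
  refine Fin.cases ?_ (fun i => ?_) p
  · simp [Alt]
  · have h2 := alt_perm (fun w : Fin n → X => F (Fin.cons (v i.succ) w))
      (fun j => v (i.succ.succAbove j)) i.cycleRange
    rw [Fin.sign_cycleRange] at h2
    have h3 : ∑ e : Equiv.Perm (Fin n),
        (((if (i.succ : Fin (n + 1)) = 0 then 1 else -1) * Equiv.Perm.sign e : ℤˣ) : ℝ) *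
          F (Fin.cons (v i.succ) (fun j : Fin n => v (Equiv.swap 0 i.succ (e j).succ)))
        = -Alt (fun w : Fin n → X => F (Fin.cons (v i.succ) w))
          (fun j => v (i.succ.succAbove (i.cycleRange j))) := by
      unfold Alt
      rw [← Finset.sum_neg_distrib]
      refine Finset.sum_congr rfl fun e _ => ?_
      rw [if_neg (Fin.succ_ne_zero i)]
      simp only [Fin.succAbove_cycleRange]
      push_cast
      ring
    rw [h3, h2]
    simp only [Fin.val_succ, pow_succ]
    push_cast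
    ring

theorem dd_alt {n : ℕ} {X : Type*} (F : (Fin n → X) → ℝ) (v : Fin (n + 1) → X) :
    dd (Alt F) v = Alt (fun w : Fin (n + 1) → X => F (fun j => w j.succ)) v := by
  rw [alt_expand]
  unfold dd
  refine Finset.sum_congr rfl fun p _ => ?_
  simp

theorem alt_dd {n : ℕ} {X : Type*} (F : (Fin n → X) → ℝ) (v : Fin (n + 1) → X) :
    Alt (dd F) v = ((n : ℝ) + 1) *
      Alt (fun w : Fin (n + 1) → X => F (fun j => w j.succ)) v := by
  have h1 : Alt (dd F) v = ∑ i : Fin (n + 1), (-1 : ℝ) ^ (i : ℕ) *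
      ∑ σ : Equiv.Perm (Fin (n + 1)), ((Equiv.Perm.sign σ : ℤ) : ℝ) *
        F (fun j => v (σ (i.succAbove j))) := by
    unfold Alt dd
    simp only [Finset.mul_sum]
    rw [Finset.sum_comm]
    refine Finset.sum_congr rfl fun i _ => Finset.sum_congr rfl fun σ _ => ?_
    ring
  have h2 : ∀ i : Fin (n + 1), (-1 : ℝ) ^ (i : ℕ) *
      ∑ σ : Equiv.Perm (Fin (n + 1)), ((Equiv.Perm.sign σ : ℤ) : ℝ) *
        F (fun j => v (σ (i.succAbove j)))
      = Alt (fun w : Fin (n + 1) → X => F (fun j => w j.succ)) v := by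
    intro i
    unfold Alt
    rw [← Equiv.sum_comp (Equiv.mulRight i.cycleRange) (fun σ : Equiv.Perm (Fin (n + 1)) =>
      ((Equiv.Perm.sign σ : ℤ) : ℝ) * F (fun j => v (σ (i.succAbove j)))), Finset.mul_sum]
    refine Finset.sum_congr rfl fun σ _ => ?_
    simp only [Equiv.coe_mulRight, Equiv.Perm.sign_mul, Fin.sign_cycleRange,
      Equiv.Perm.mul_apply, Fin.cycleRange_succAbove]
    push_cast
    have h3 : (-1 : ℝ) ^ (i : ℕ) * (-1 : ℝ) ^ (i : ℕ) = 1 := by
      rw [← mul_pow]; norm_num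
    linear_combination (((Equiv.Perm.sign σ : ℤ) : ℝ) * F (fun j => v (σ j.succ))) * h3
  rw [h1, Finset.sum_congr rfl (fun i _ => h2 i), Finset.sum_const, Finset.card_univ,
    Fintype.card_fin, nsmul_eq_mul]
  push_cast
  ring

theorem dd_smul {n : ℕ} {X : Type*} (c : ℝ) (F : (Fin n → X) → ℝ) (v : Fin (n + 1) → X) :
    dd (fun w => c * F w) v = c * dd F v := by
  unfold dd
  rw [Finset.mul_sum]
  refine Finset.sum_congr rfl fun i _ => ?_
  ring

theorem dd_alter {n : ℕ} {X : Type*} (F : (Fin n → X) → ℝ) (hF : Alter F) : Alter (dd F) := by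
  have hn : (n.factorial : ℝ) ≠ 0 := by exact_mod_cast n.factorial_ne_zero
  have h1 : F = fun w => (1 / (n.factorial : ℝ)) * Alt F w := by
    funext w
    rw [alt_of_alter hF w]
    field_simp
  have h2 : ∀ v : Fin (n + 1) → X, dd F v = (1 / (n.factorial : ℝ)) *
      Alt (fun w : Fin (n + 1) → X => F (fun j => w j.succ)) v := by
    intro v
    conv_lhs => rw [h1]
    rw [dd_smul, dd_alt]
  intro i j m hij
  rw [h2, h2, alt_alter _ i j m hij]
  ring

theorem alt_reduce {n : ℕ} {X : Type*} (F : (Fin n → X) → ℝ) (hF : Alter (dd F))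
    (v : Fin (n + 1) → X) :
    dd (fun w => (1 / (n.factorial : ℝ)) * Alt F w) v = dd F v := by
  have hn : (n.factorial : ℝ) ≠ 0 := by exact_mod_cast n.factorial_ne_zero
  have hn1 : ((n : ℝ) + 1) ≠ 0 := by positivity
  have h1 := alt_of_alter hF v
  rw [alt_dd] at h1
  rw [dd_smul, dd_alt]
  have h2 : (((n + 1).factorial : ℕ) : ℝ) = ((n : ℝ) + 1) * (n.factorial : ℝ) := by
    rw [Nat.factorial_succ]; push_cast; ring
  rw [h2, mul_assoc] at h1
  have h3 := mul_left_cancel₀ hn1 h1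
  rw [h3]
  field_simp

end Pool.Agent.H99.EXB
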