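import Pool.Agent.Helper87.EX.A
import Pool.Agent.H99.EXB.Alt

/-! Project EX, module B: `Psi` as a sum over pairs and its elementary properties. -/

set_option autoImplicit false

namespace Pool.Agent.H99.EXB

open MeasureTheory Complex
open Pool.Agent.Helper87.EX
open scoped BigOperators

/-! ### symmetries of `VV` and `LL` -/

theorem dt_swap01 (a b c : Fin 3 → ℂ) : dt b a c = -dt a b c := by
  unfold dt; ring

theorem dt_swap12 (a b c : Fin 3 → ℂ) : dt a c b = -dt a b c := by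
  unfold dt; ring

theorem dt_plu (e i j k l : Fin 3 → ℂ) :
    dt e i j * dt e k l - dt e i k * dt e j l + dt e i l * dt e j k = 0 := by
  unfold dt; ring

theorem LL_swap01 (a b c : Fin 3 → ℂ) : LL b a c = LL a b c := by
  unfold LL; rw [dt_swap01 a b c, norm_neg]

theorem LL_swap12 (a b c : Fin 3 → ℂ) : LL a c b = LL a b c := by
  unfold LL; rw [dt_swap12 a b c, norm_neg]

private theorem bw_zero : BW 0 = 0 := by
  have h := BW_ofReal 0
  simpa using h

theorem VV_swap01 (e a b c d : Fin 3 → ℂ) : VV e b a c d = -VV e a b c d := by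
  unfold VV
  rw [← BW_inv]
  congr 1
  rw [inv_div]
  congr 1 <;> ring

theorem VV_swap23 (e a b c d : Fin 3 → ℂ) : VV e a b d c = -VV e a b c d := by
  unfold VV
  rw [← BW_inv]
  congr 1
  rw [inv_div]

theorem VV_swap12 (e a b c d : Fin 3 → ℂ) : VV e a c b d = -VV e a b c d := by
  unfold VV
  rw [← BW_one_sub]
  by_cases hbc : dt e b c = 0
  · have hcb : dt e c b = 0 := by rw [dt_swap12, hbc, neg_zero]
    have h1 : dt e a b * dt e c d / (dt e a d * dt e c b) = 0 := by rw [hcb]; simp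
    have h2 : dt e a c * dt e b d / (dt e a d * dt e b c) = 0 := by rw [hbc]; simp
    rw [h1, h2, bw_zero, sub_zero]
    have h3 := BW_ofReal 1
    simpa using h3.symm
  by_cases had : dt e a d = 0
  · have h1 : dt e a b * dt e c d / (dt e a d * dt e c b) = 0 := by rw [had]; simp
    have h2 : dt e a c * dt e b d / (dt e a d * dt e b c) = 0 := by rw [had]; simp
    rw [h1, h2, bw_zero, sub_zero]
    have h3 := BW_ofReal 1
    simpa using h3.symm
  · congr 1
    have hcb : dt e c b = -dt e b c := dt_swap12 e b c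
    rw [hcb]
    have hp := dt_plu e a b c d
    field_simp
    linear_combination -hp

theorem VV_anti : ∀ (e : Fin 3 → ℂ) (a b c d : Fin 3 → ℂ),
    VV e b a c d = -VV e a b c d ∧ VV e a c b d = -VV e a b c d ∧ VV e a b d c = -VV e a b c d :=
  fun e a b c d => ⟨VV_swap01 e a b c d, VV_swap12 e a b c d, VV_swap23 e a b c d⟩

/-! ### the formula for `Psi` -/

private theorem alter_three {X : Type*} (f : X → X → X → ℝ)
    (h01 : ∀ a b c, f b a c = -f a b c) (h12 : ∀ a b c, f a c b = -f a b c) :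
    Alter (fun u : Fin 3 → X => f (u 0) (u 1) (u 2)) := by
  have h02 : ∀ a b c, f c b a = -f a b c := by
    intro a b c
    rw [h01 b c a, h12 b a c, h01 a b c]
    ring
  intro i j m hij
  fin_cases i <;> fin_cases j <;> simp [Equiv.swap_apply_def] at hij ⊢
  all_goals first | exact h01 _ _ _ | exact h12 _ _ _ | exact h02 _ _ _

private theorem sign_rot (e : Fin 3 → ℂ) (w : Fin 4 → Fin 3 → ℂ) (r : Fin 4) :
    (-1 : ℝ) ^ (r : ℕ) * VV e (w r) (w (r.succAbove 0)) (w (r.succAbove 1)) (w (r.succAbove 2))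
      = VV e (w 0) (w 1) (w 2) (w 3) := by
  have h1 : VV e (w 1) (w 0) (w 2) (w 3) = -VV e (w 0) (w 1) (w 2) (w 3) := VV_swap01 _ _ _ _ _
  have h2 : VV e (w 2) (w 0) (w 1) (w 3) = VV e (w 0) (w 1) (w 2) (w 3) := by
    rw [VV_swap01 e (w 0) (w 2), VV_swap12 e (w 0) (w 1), neg_neg]
  have h3 : VV e (w 3) (w 0) (w 1) (w 2) = -VV e (w 0) (w 1) (w 2) (w 3) := by
    rw [VV_swap01 e (w 0) (w 3), VV_swap12 e (w 0) (w 1), VV_swap23 e (w 0) (w 1), neg_neg]
  fin_cases r
  · simp [Fin.succAbove]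
  · have e1 : (1 : Fin 4).succAbove (0 : Fin 3) = 0 := by decide
    have e2 : (1 : Fin 4).succAbove (1 : Fin 3) = 2 := by decide
    have e3 : (1 : Fin 4).succAbove (2 : Fin 3) = 3 := by decide
    show (-1 : ℝ) ^ 1 * VV e (w 1) (w ((1 : Fin 4).succAbove 0)) (w ((1 : Fin 4).succAbove 1))
      (w ((1 : Fin 4).succAbove 2)) = _
    rw [e1, e2, e3, h1]; ring
  · have e1 : (2 : Fin 4).succAbove (0 : Fin 3) = 0 := by decide
    have e2 : (2 : Fin 4).succAbove (1 : Fin 3) = 1 := by decide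
    have e3 : (2 : Fin 4).succAbove (2 : Fin 3) = 3 := by decide
    show (-1 : ℝ) ^ 2 * VV e (w 2) (w ((2 : Fin 4).succAbove 0)) (w ((2 : Fin 4).succAbove 1))
      (w ((2 : Fin 4).succAbove 2)) = _
    rw [e1, e2, e3, h2]; ring
  · have e1 : (3 : Fin 4).succAbove (0 : Fin 3) = 0 := by decide
    have e2 : (3 : Fin 4).succAbove (1 : Fin 3) = 1 := by decide
    have e3 : (3 : Fin 4).succAbove (2 : Fin 3) = 2 := by decide
    show (-1 : ℝ) ^ 3 * VV e (w 3) (w ((3 : Fin 4).succAbove 0)) (w ((3 : Fin 4).succAbove 1))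
      (w ((3 : Fin 4).succAbove 2)) = _
    rw [e1, e2, e3, h3]; ring

/-- `Psi` as a sum over ordered pairs -/
theorem Psi_eq (v : Fin 5 → Fin 3 → ℂ) :
    Psi v = -(1 / 3) * ∑ p : Fin 5, ∑ r : Fin 4, (-1 : ℝ) ^ (p : ℕ) *
      VV (v p) (v (p.succAbove 0)) (v (p.succAbove 1)) (v (p.succAbove 2)) (v (p.succAbove 3)) *
      LL (v (p.succAbove (r.succAbove 0))) (v (p.succAbove (r.succAbove 1)))
        (v (p.succAbove (r.succAbove 2))) := by
  unfold Psi
  rw [alt_expand, Finset.mul_sum]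
  refine Finset.sum_congr rfl fun p _ => ?_
  rw [alt_expand, Finset.mul_sum, Finset.mul_sum]
  refine Finset.sum_congr rfl fun r _ => ?_
  have hA : Alter (fun u : Fin 3 → Fin 3 → ℂ => -(1 / 18) *
      (VV (v p) (v (p.succAbove r)) (u 0) (u 1) (u 2) * LL (u 0) (u 1) (u 2))) := by
    refine alter_three (fun a b c => -(1 / 18) *
      (VV (v p) (v (p.succAbove r)) a b c * LL a b c)) ?_ ?_
    · intro a b c
      show -(1 / 18) * (VV (v p) (v (p.succAbove r)) b a c * LL b a c) =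
        -(-(1 / 18) * (VV (v p) (v (p.succAbove r)) a b c * LL a b c))
      rw [VV_swap12 _ _ a b, LL_swap01 a b]; ring
    · intro a b c
      show -(1 / 18) * (VV (v p) (v (p.succAbove r)) a c b * LL a c b) =
        -(-(1 / 18) * (VV (v p) (v (p.succAbove r)) a b c * LL a b c))
      rw [VV_swap23 _ _ a b, LL_swap12 a b]; ring
  have h1 := alt_of_alter hA (fun j => v (p.succAbove (r.succAbove j)))
  have h2 := sign_rot (v p) (fun j => v (p.succAbove j)) r
  show (-1 : ℝ) ^ (p : ℕ) * ((-1 : ℝ) ^ (r : ℕ) * Alt (fun u : Fin 3 → Fin 3 → ℂ => -(1 / 18) *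
      (VV (v p) (v (p.succAbove r)) (u 0) (u 1) (u 2) * LL (u 0) (u 1) (u 2)))
      (fun j => v (p.succAbove (r.succAbove j)))) = _
  rw [h1, ← h2]
  have h3 : (Nat.factorial 3 : ℝ) = 6 := by norm_num [Nat.factorial]
  rw [h3]
  ring

theorem Psi_alter : Alter Psi := alt_alter _

/-! ### invariance, measurability and the elementary bound -/

theorem dt_mulVec (g : Matrix (Fin 3) (Fin 3) ℂ) (a b c : Fin 3 → ℂ) :
    dt (g.mulVec a) (g.mulVec b) (g.mulVec c) = g.det * dt a b c := by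
  unfold dt
  rw [Matrix.det_fin_three]
  simp only [Matrix.mulVec, dotProduct, Fin.sum_univ_three]
  ring

theorem Psi_act (g : Matrix (Fin 3) (Fin 3) ℂ) (hg : g.det = 1) (v : Fin 5 → Fin 3 → ℂ) :
    Psi (fun i => g.mulVec (v i)) = Psi v := by
  unfold Psi Alt VV LL
  simp only [dt_mulVec, hg, one_mul]

theorem dt_meas {n : ℕ} (i j k : Fin n) :
    Measurable (fun v : Fin n → Fin 3 → ℂ => dt (v i) (v j) (v k)) := by
  unfold dt
  fun_prop

theorem VV_meas {n : ℕ} (e i j k l : Fin n) :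
    Measurable (fun v : Fin n → Fin 3 → ℂ => VV (v e) (v i) (v j) (v k) (v l)) := by
  unfold VV
  exact BW_meas.comp (((dt_meas e i k).mul (dt_meas e j l)).div
    ((dt_meas e i l).mul (dt_meas e j k)))

theorem LL_meas {n : ℕ} (i j k : Fin n) :
    Measurable (fun v : Fin n → Fin 3 → ℂ => LL (v i) (v j) (v k)) := by
  unfold LL
  exact Real.measurable_log.comp (dt_meas i j k).norm

theorem Psi_meas : Measurable Psi := by
  unfold Psi Alt
  refine Finset.measurable_sum _ fun σ _ => ?_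
  exact measurable_const.mul (measurable_const.mul
    ((VV_meas (σ 0) (σ 1) (σ 2) (σ 3) (σ 4)).mul (LL_meas (σ 2) (σ 3) (σ 4))))

theorem LL_le_sum {n : ℕ} (v : Fin n → Fin 3 → ℂ) {i j k : Fin n} (hij : i ≠ j) (hik : i ≠ k)
    (hjk : j ≠ k) :
    |LL (v i) (v j) (v k)| ≤ ∑ i : Fin n, ∑ j : Fin n, ∑ k : Fin n,
      (if i < j ∧ j < k then |LL (v i) (v j) (v k)| else 0) := by
  have key : ∀ a b c : Fin n, a < b → b < c →
      |LL (v a) (v b) (v c)| ≤ ∑ i : Fin n, ∑ j : Fin n, ∑ k : Fin n,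
        (if i < j ∧ j < k then |LL (v i) (v j) (v k)| else 0) := by
    intro a b c hab hbc
    have nn : ∀ i j k : Fin n, 0 ≤ (if i < j ∧ j < k then |LL (v i) (v j) (v k)| else 0) := by
      intro i j k
      split_ifs
      · exact abs_nonneg _
      · exact le_refl _
    calc |LL (v a) (v b) (v c)| = (if a < b ∧ b < c then |LL (v a) (v b) (v c)| else 0) := by
          rw [if_pos ⟨hab, hbc⟩]
      _ ≤ ∑ k : Fin n, (if a < b ∧ b < k then |LL (v a) (v b) (v k)| else 0) :=
          Finset.single_le_sum (f := fun k => if a < b ∧ b < k then |LL (v a) (v b) (v k)| else 0)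
            (fun k _ => nn a b k) (Finset.mem_univ c)
      _ ≤ ∑ j : Fin n, ∑ k : Fin n, (if a < j ∧ j < k then |LL (v a) (v j) (v k)| else 0) :=
          Finset.single_le_sum
            (f := fun j => ∑ k : Fin n, if a < j ∧ j < k then |LL (v a) (v j) (v k)| else 0)
            (fun j _ => Finset.sum_nonneg fun k _ => nn a j k) (Finset.mem_univ b)
      _ ≤ _ := Finset.single_le_sum
            (f := fun i => ∑ j : Fin n, ∑ k : Fin n,
              if i < j ∧ j < k then |LL (v i) (v j) (v k)| else 0)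
            (fun i _ => Finset.sum_nonneg fun j _ => Finset.sum_nonneg fun k _ => nn i j k)
            (Finset.mem_univ a)
  rcases lt_or_gt_of_ne hij with h1 | h1 <;> rcases lt_or_gt_of_ne hjk with h2 | h2 <;>
    rcases lt_or_gt_of_ne hik with h3 | h3
  · exact key i j k h1 h2
  · exact absurd (h1.trans h2) (not_lt.mpr h3.le)
  · rw [← LL_swap12]; exact key i k j h3 h2
  · rw [← LL_swap12, ← LL_swap01]; exact key k i j h3 h1
  · rw [← LL_swap01]; exact key j i k h1 h3
  · rw [← LL_swap01, ← LL_swap12]; exact key j k i h2 h3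
  · exact absurd (h2.trans h1) (not_lt.mpr h3.le)
  · rw [← LL_swap01, ← LL_swap12, ← LL_swap01]; exact key k j i h2 h1

theorem Psi_le : ∃ C : ℝ, 0 ≤ C ∧ ∀ v : Fin 5 → Fin 3 → ℂ,
    |Psi v| ≤ C * ∑ i : Fin 5, ∑ j : Fin 5, ∑ k : Fin 5,
      (if i < j ∧ j < k then |LL (v i) (v j) (v k)| else 0) := by
  obtain ⟨C, hC0, hC⟩ := BW_bdd
  refine ⟨120 * (1 / 18 * C), by positivity, fun v => ?_⟩
  set S := ∑ i : Fin 5, ∑ j : Fin 5, ∑ k : Fin 5,
      (if i < j ∧ j < k then |LL (v i) (v j) (v k)| else 0) with hS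
  have hterm : ∀ σ ∈ (Finset.univ : Finset (Equiv.Perm (Fin 5))),
      |((Equiv.Perm.sign σ : ℤ) : ℝ) * (-(1 / 18) * (VV (v (σ 0)) (v (σ 1)) (v (σ 2)) (v (σ 3))
        (v (σ 4)) * LL (v (σ 2)) (v (σ 3)) (v (σ 4))))| ≤ 1 / 18 * C * S := by
    intro σ _
    have hs : |((Equiv.Perm.sign σ : ℤ) : ℝ)| = 1 := by
      rcases Int.units_eq_one_or (Equiv.Perm.sign σ) with h | h <;> rw [h] <;> simp
    have h1 : |VV (v (σ 0)) (v (σ 1)) (v (σ 2)) (v (σ 3)) (v (σ 4))| ≤ C := hC _
    have h2 : |LL (v (σ 2)) (v (σ 3)) (v (σ 4))| ≤ S :=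
      LL_le_sum v (fun h => absurd (σ.injective h) (by decide))
        (fun h => absurd (σ.injective h) (by decide)) (fun h => absurd (σ.injective h) (by decide))
    rw [abs_mul, hs, one_mul, abs_mul, abs_mul, abs_neg, abs_of_pos (by norm_num : (0:ℝ) < 1 / 18),
      mul_assoc]
    exact mul_le_mul_of_nonneg_left (mul_le_mul h1 h2 (abs_nonneg _) hC0) (by norm_num)
  calc |Psi v| ≤ ∑ σ : Equiv.Perm (Fin 5), |((Equiv.Perm.sign σ : ℤ) : ℝ) *
        (-(1 / 18) * (VV (v (σ 0)) (v (σ 1)) (v (σ 2)) (v (σ 3))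
        (v (σ 4)) * LL (v (σ 2)) (v (σ 3)) (v (σ 4))))| := by
        unfold Psi Alt
        exact Finset.abs_sum_le_sum_abs _ _
    _ ≤ ∑ σ : Equiv.Perm (Fin 5), 1 / 18 * C * S := Finset.sum_le_sum hterm
    _ = 120 * (1 / 18 * C) * S := by
        rw [Finset.sum_const, Finset.card_univ, Fintype.card_perm, Fintype.card_fin, nsmul_eq_mul]
        norm_num [Nat.factorial]
        ring

end Pool.Agent.H99.EXB
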